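import Pool.Agent.Helper63.SM.Num

/-!
# Project SW, model part: names of matrices
-/

set_option autoImplicit false

namespace Pool.Agent.Helper52.SW

open Cardinal Filter Set Pool.Agent.Helper23.XB Pool.Agent.Helper33.HM Pool.Agent.Helper33.HMG
open Pool.Agent.Helper32.HB Pool.Agent.Helper63.WR Pool.Agent.Helper63.SM

variable {P : Type} [Preorder P] [OrderTop P]

/-- The name of the set of the elements `c x` with the values `F x`. -/
theorem exists_set {X : Type} (c : X → Nm P) (hc : ∀ x y, x ≠ y → veq (c x) (c y) = ⊥)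
    (F : X → RO P) : ∃ γ : Nm P, ∀ x, vm (c x) γ = F x := by
  refine ⟨.mk {y : X × P // y.2 ∈ F y.1} (fun y => c y.1.1) (fun y => y.1.2), fun x => ?_⟩
  refine RO.ext' fun p => ?_
  rw [vm_mk]
  constructor
  · intro h
    refine RO.mem_reg fun q hq => ?_
    obtain ⟨r, hr, ⟨⟨y, s⟩, hs⟩, h1, h2⟩ := h q hq
    refine ⟨r, hr, ?_⟩
    have h3 : x = y := by
      by_contra hne
      have h4 : r ∈ veq (c x) (c y) := h2
      rw [hc x y hne] at h4
      exact RO.not_mem_bot r h4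
    subst h3
    exact RO.mem_lower (show r ≤ s from h1) hs
  · intro hp q hq
    refine ⟨q, le_rfl, ⟨(x, q), RO.mem_lower hq hp⟩, le_rfl, ?_⟩
    change q ∈ veq (c x) (c x)
    rw [veq_refl]
    exact RO.mem_top q

theorem veq_oN {a b : ℕ} (h : a ≠ b) : veq (oN a : Nm P) (oN b) = ⊥ :=
  veq_onm fun h' => h (by exact_mod_cast h')

theorem veq_oI {μ : Ordinal.{0}} {i j : μ.ToType} (h : i ≠ j) : veq (oI i : Nm P) (oI j) = ⊥ :=
  veq_onm fun h' => h (Ordinal.ToType.mk.symm.injective (Subtype.ext h'))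

theorem exists_mG (G : ℕ → ℕ → RO P) : ∃ γ : Nm P, ∀ a b, vm (pairN (oN a) (oN b)) γ = G a b := by
  obtain ⟨γ, h⟩ := exists_set (X := ℕ × ℕ) (fun x => (pairN (oN x.1) (oN x.2) : Nm P)) (by
    rintro ⟨a, b⟩ ⟨a', b'⟩ hne
    rw [veq_pairN]
    by_cases ha : a = a'
    · rw [veq_oN (a := b) (b := b') (fun hb => hne (by rw [ha, hb])), inf_bot_eq]
    · rw [veq_oN (a := a) (b := a') ha, bot_inf_eq]) fun x => G x.1 x.2
  exact ⟨γ, fun a b => h (a, b)⟩

theorem exists_mC {μ : Ordinal.{0}} (c : μ.ToType → ℕ → ℕ → RO P) :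
    ∃ χ : Nm P, ∀ i k a, vm (pairN (oI i) (pairN (oN k) (oN a))) χ = c i k a := by
  obtain ⟨γ, h⟩ := exists_set (X := μ.ToType × ℕ × ℕ)
    (fun x => (pairN (oI x.1) (pairN (oN x.2.1) (oN x.2.2)) : Nm P)) (by
    rintro ⟨i, a, b⟩ ⟨i', a', b'⟩ hne
    rw [veq_pairN, veq_pairN]
    by_cases hi : i = i'
    · by_cases ha : a = a'
      · rw [veq_oN (a := b) (b := b') (fun hb => hne (by rw [hi, ha, hb])), inf_bot_eq,
          inf_bot_eq]
      · rw [veq_oN (a := a) (b := a') ha, bot_inf_eq, inf_bot_eq]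
    · rw [veq_oI (i := i) (j := i') hi, bot_inf_eq]) fun x => c x.1 x.2.1 x.2.2
  exact ⟨γ, fun i k a => h (i, k, a)⟩

theorem ae_mats {μ : Ordinal.{0}} (G : μ.ToType → μ.ToType → ℕ → ℕ → RO P)
    (c : μ.ToType → μ.ToType → μ.ToType → ℕ → ℕ → RO P) :
    ∀ᶠ g in aeM P, ∀ i j : μ.ToType, (oI i : Nm P) ∈ g.N → (oI j : Nm P) ∈ g.N →
      ∃ γ ∈ g.N, ∃ χ ∈ g.N, (∀ a b, vm (pairN (oN a) (oN b)) γ = G i j a b) ∧
        ∀ x k a, vm (pairN (oI x) (pairN (oN k) (oN a))) χ = c i j x k a := by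
  classical
  have h1 : ∀ i j, ∃ γ : Nm P, ∀ a b, vm (pairN (oN a) (oN b)) γ = G i j a b := fun i j =>
    exists_mG (G i j)
  have h2 : ∀ i j, ∃ χ : Nm P, ∀ x k a, vm (pairN (oI x) (pairN (oN k) (oN a))) χ = c i j x k a :=
    fun i j => exists_mC (c i j)
  choose γ hγ using h1
  choose χ hχ using h2
  filter_upwards [ae_cl2 (fun σ τ : Nm P =>
      if h : ∃ p : μ.ToType × μ.ToType, oI p.1 = σ ∧ oI p.2 = τ then γ h.choose.1 h.choose.2
      else emptyN),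
    ae_cl2 (fun σ τ : Nm P =>
      if h : ∃ p : μ.ToType × μ.ToType, oI p.1 = σ ∧ oI p.2 = τ then χ h.choose.1 h.choose.2
      else emptyN)] with g g1 g2 i j hi hj
  have h : ∃ p : μ.ToType × μ.ToType, (oI p.1 : Nm P) = oI i ∧ (oI p.2 : Nm P) = oI j :=
    ⟨(i, j), rfl, rfl⟩
  have h3 := g1 _ hi _ hj
  have h4 := g2 _ hi _ hj
  rw [dif_pos h] at h3 h4
  rw [oI_inj h.choose_spec.1, oI_inj h.choose_spec.2] at h3 h4
  exact ⟨_, h3, _, h4, hγ i j, hχ i j⟩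

end Pool.Agent.Helper52.SW
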