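import Pool.Agent.Helper63.WR.DefsM
import Pool.Agent.Helper63.WR.Final
import Pool.Agent.Helper23.XB.E1a
import Pool.Agent.Helper23.XB.E1b
import Pool.Agent.Helper23.XB.E2d
import Pool.Agent.Helper23.XB.E3
import Pool.Agent.Helper23.XB.E4
import Pool.Agent.Helper2.SW.Defs2
import Mathlib.SetTheory.Cardinal.Regular

/-!
# Project SW: the cardinals omega_1 and omega_2 of the model
-/

set_option autoImplicit false

namespace Pool.Agent.Helper52.SW

open Cardinal Filter Set Pool.Agent.Helper23.XB Pool.Agent.Helper33.HM Pool.Agent.Helper33.HMG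
open Pool.Agent.Helper32.HB Pool.Agent.Helper63.WR Pool.Agent.Helper2.SW
open Pool.Agent.Helper87.Sym (Fml cons Sat IsTransModelZF)

section Bool

variable {P : Type} [Preorder P] [OrderTop P]

/-- No surjection of a smaller cardinal onto a regular cardinal `μ ≥ δ`, if the poset has the
`δ`-chain condition. -/
theorem no_onto {δ ν μ : Cardinal.{0}} (hc : CC δ P) (hμ : μ.IsRegular)
    (hδμ : δ ≤ μ) (hνμ : ν < μ) (f : Nm P) : vOnto (onm ν.ord) (onm μ.ord) f = ⊥ := by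
  by_contra hne
  obtain ⟨p, hp⟩ := RO.ne_bot_iff.1 hne
  have hsub : p ∈ vSub (onm μ.ord : Nm P) (onm μ.ord) := by
    refine RO.mem_iInf.2 fun x => ?_
    rw [RO.mem_himp]
    exact fun q _ h => h
  obtain ⟨h1, h2⟩ := mx_onto (ν := ν.ord) (α := μ.ord) (onm μ.ord) f p hsub hp
  -- the possible values
  let K : ν.ord.ToType → Set μ.ord.ToType := fun n => {k | ∃ q, q ≤ p ∧ q ∈ mx f n k}
  have hK : ∀ n, #(K n) < μ := by
    intro n
    refine lt_of_lt_of_le ?_ hδμ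
    have hch : ∀ k : K n, ∃ q, q ≤ p ∧ q ∈ mx f n k.1 := fun k => k.2
    choose q hq1 hq2 using hch
    have hinc : ∀ k k' : K n, k ≠ k' → ¬ ∃ r : P, r ≤ q k ∧ r ≤ q k' := by
      rintro k k' hkk ⟨r, hr1, hr2⟩
      have h3 := h1 n k.1 k'.1 (fun h => hkk (Subtype.ext h))
      rw [RO.mem_compl] at h3
      exact h3 r (hr1.trans (hq1 k)) ⟨RO.mem_lower hr1 (hq2 k), RO.mem_lower hr2 (hq2 k')⟩
    have hinj : Function.Injective q := by
      intro k k' h
      by_contra hkk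
      exact hinc k k' hkk ⟨q k, le_rfl, by rw [h]⟩
    have h4 : #(range q) < δ := by
      apply hc
      rintro _ ⟨k, rfl⟩ _ ⟨k', rfl⟩ hkk
      exact hinc k k' fun h => hkk (by rw [h])
    rwa [Cardinal.mk_range_eq q hinj] at h4
  have hU : (⋃ n, K n) = Set.univ := by
    apply eq_univ_of_forall
    intro k
    have h3 : p ∈ rlK (onm μ.ord : Nm P) k := by
      unfold rlK
      rw [vm_onm_lt (Ordinal.ToType.toOrd k).2]
      exact RO.mem_top p
    have h4 := RO.mem_himp.1 (h2 k) p le_rfl h3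
    obtain ⟨r, hr, n, hn⟩ := RO.mem_iSup.1 h4 p le_rfl
    exact mem_iUnion.2 ⟨n, r, hr, hn⟩
  have h5 : #(⋃ n, K n) < μ := by
    rw [Cardinal.card_iUnion_lt_iff_forall_of_isRegular hμ]
    · exact hK
    · rw [Cardinal.mk_toType, Cardinal.card_ord]
      exact hνμ
  rw [hU, Cardinal.mk_univ, Cardinal.mk_toType, Cardinal.card_ord] at h5
  exact lt_irrefl _ h5

/-- A matrix of a surjection of `ω` gives a name of a surjection. -/
theorem vOnto_relN {α : Ordinal.{0}} (t : ℕ → α.ToType → RO P)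
    (h1 : ∀ n k k', k ≠ k' → t n k ⊓ t n k' = ⊥) (h2 : ∀ n, ⨆ k, t n k = ⊤)
    (h3 : ∀ k, ⨆ n, t n k = ⊤) : vOnto (onm Ordinal.omega0) (onm α) (relN t) = ⊤ := by
  rw [eq_top_iff]
  intro p _
  refine ⟨by rw [vFun_relN t h2 h1]; exact RO.mem_top p, ?_⟩
  refine RO.mem_iInf.2 fun y => ?_
  rw [RO.mem_himp]
  intro q _ hy
  rw [vm_onm, RO.mem_iSup] at hy
  refine RO.mem_reg fun r hr => ?_
  obtain ⟨s, hs, k, hk⟩ := hy r hr
  have h4 : s ∈ ⨆ n, t n k := by rw [h3 k]; exact RO.mem_top s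
  obtain ⟨u, hu, n, hn⟩ := RO.mem_iSup.1 h4 s le_rfl
  refine ⟨u, hu.trans hs, ?_⟩
  refine RO.mem_iSup.2 fun w hw => ⟨w, le_rfl, onm (n : Ordinal.{0}), ?_, ?_⟩
  · rw [vm_onm_lt (Ordinal.natCast_lt_omega0 n)]
    exact RO.mem_top w
  · refine vm_congr_left (pairN (onm (n : Ordinal.{0})) (onm (Ordinal.ToType.toOrd k).1)) _ _ w
      ⟨?_, ?_⟩
    · rw [veq_pairN, veq_refl, top_inf_eq, veq_comm]
      exact RO.mem_lower (hw.trans hu) hk
    · rw [vm_pair_relN]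
      exact RO.mem_lower hw hn

/-- A surjection of ordinals gives a name of a surjection. -/
theorem vOnto_fnN {α β : Ordinal.{0}} (s : α.ToType → β.ToType) (hs : Function.Surjective s) :
    vOnto (onm α) (onm β) (fnN fun i => (onm (Ordinal.ToType.toOrd (s i)).1 : Nm P)) = ⊤ := by
  rw [eq_top_iff]
  intro p _
  refine ⟨vFun_fnN _ _ p (RO.mem_iInf.2 fun i => ?_), ?_⟩
  · rw [vm_onm_lt (Ordinal.ToType.toOrd (s i)).2]
    exact RO.mem_top p
  · refine RO.mem_iInf.2 fun y => ?_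
    rw [RO.mem_himp]
    intro q _ hy
    rw [vm_onm, RO.mem_iSup] at hy
    refine RO.mem_reg fun r hr => ?_
    obtain ⟨v, hv, k, hk⟩ := hy r hr
    obtain ⟨i, rfl⟩ := hs k
    refine ⟨v, hv, ?_⟩
    refine RO.mem_iSup.2 fun w hw => ⟨w, le_rfl, onm (Ordinal.ToType.toOrd i).1, ?_, ?_⟩
    · rw [vm_onm_lt (Ordinal.ToType.toOrd i).2]
      exact RO.mem_top w
    · rw [vm_pair_fnN]
      exact RO.mem_lower hw hk

end Bool

section Model

variable {P : Type} [Preorder P] [OrderTop P]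

/-- The truth of the surjectivity. -/
theorem fc_onto (g : GG P) (hM : IsTransModelZF g.M) {σ τ ρ : Nm P} (hσ : σ ∈ g.N) (hτ : τ ∈ g.N)
    (hρ : ρ ∈ g.N) : g.fc (vOnto σ τ ρ) ↔ Onto (g.val σ) (g.val τ) (g.val ρ) := by
  have hv : ∀ i, (cons σ (cons τ fun _ => ρ) : ℕ → Nm P) i ∈ g.N := by
    intro i
    match i with
    | 0 => exact hσ
    | 1 => exact hτ
    | i + 2 => exact hρ
  have h1 := GG.truth (fOnto 0 1 2) hv
  have h2 : g.fc (vOnto σ τ ρ) ↔ ∃ k, Fc (fOnto 0 1 2) (cons σ (cons τ fun _ => ρ)) (g.pc k) := by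
    refine exists_congr fun k => ?_
    rw [← H28E1b.mem_val, H28E1b.val_fOnto]
    rfl
  rw [h2, h1]
  exact E1aAux.sat_fOnto hM (v := fun i => g.val ((cons σ (cons τ fun _ => ρ) : ℕ → Nm P) i))
    (a := 0) (b := 1) (f := 2) (GG.val_mem hσ) (GG.val_mem hτ) (GG.val_mem hρ)

/-- The elements of the value of `onm α`. -/
theorem mem_val_onm (g : GG P) {α : Ordinal.{0}} {x : ZFSet.{0}} :
    x ∈ g.val (onm α) ↔ ∃ β, β < α ∧ (onm β : Nm P) ∈ g.N ∧ g.val (onm β) = x := by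
  rw [onm, GG.mem_val]
  constructor
  · rintro ⟨i, h1, -, h2⟩
    exact ⟨_, (Ordinal.ToType.toOrd (o := α) i).2, h1, h2⟩
  · rintro ⟨β, h1, h2, h3⟩
    have h4 : (Ordinal.ToType.toOrd (Ordinal.ToType.mk (⟨β, h1⟩ : Iio α))).1 = β := by
      simp
    refine ⟨Ordinal.ToType.mk (⟨β, h1⟩ : Iio α), ?_, ⟨0, le_top⟩, ?_⟩
    · change (onm (Ordinal.ToType.toOrd (Ordinal.ToType.mk (⟨β, h1⟩ : Iio α))).1 : Nm P) ∈ g.N
      rw [h4]
      exact h2
    · change g.val (onm (Ordinal.ToType.toOrd (Ordinal.ToType.mk (⟨β, h1⟩ : Iio α))).1) = x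
      rw [h4]
      exact h3

theorem ordinal_val_onm (g : GG P) (hM : IsTransModelZF g.M) {α : Ordinal.{0}}
    (h : (onm α : Nm P) ∈ g.N) : (g.val (onm α)).IsOrdinal := by
  have hv : ∀ i, (fun _ => onm α : ℕ → Nm P) i ∈ g.N := fun _ => h
  have h1 := GG.truth (fOrd 0) hv
  refine E1aAux.sat_fOrd hM (v := fun _ => g.val (onm α)) (c := 0) (GG.val_mem h) (h1.1 ⟨0, ?_⟩)
  rw [← H28E1b.mem_val, H28E1b.val_fOrd, vOrd_onm]
  exact RO.mem_top _

theorem val_onm_lt (g : GG P) {α β : Ordinal.{0}} (h : β < α) (hβ : (onm β : Nm P) ∈ g.N) :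
    g.val (onm β) ∈ g.val (onm α) := (mem_val_onm g).2 ⟨β, h, hβ, rfl⟩

/-- The criterion for the successor cardinals. -/
theorem ae_succCard (γ α : Ordinal.{0}) (hγα : γ < α)
    (hle : ∀ β, β ≠ 0 → β < α → ∃ f : Nm P, vOnto (onm γ) (onm β) f = ⊤)
    (hno : ∀ f : Nm P, vOnto (onm γ) (onm α) f = ⊥) :
    ∀ᶠ g in aeM P, IsSuccCardIn g.M (g.val (onm γ)) (g.val (onm α)) := by
  classical
  have : Nonempty (Nm P) := ⟨emptyN⟩
  choose! F hF using hle
  filter_upwards [ae_zfc, ae_cl0 (onm γ : Nm P), ae_cl0 (onm α : Nm P),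
    ae_cl1 (fun σ : Nm P => if h : ∃ β, β ≠ 0 ∧ β < α ∧ onm β = σ then F h.choose else σ)]
    with g hM hγ hα hcl
  refine ⟨GG.val_mem hα, ordinal_val_onm g hM.2.zf hα, val_onm_lt g hγα hγ, ?_, ?_⟩
  · intro a ha hne
    obtain ⟨β, h1, h2, h3⟩ := (mem_val_onm g).1 ha
    have h0 : β ≠ 0 := by
      rintro rfl
      apply hne
      rw [← h3]
      rw [ZFSet.eq_empty]
      intro y hy
      obtain ⟨ζ, hζ, -⟩ := (mem_val_onm g).1 hy
      exact absurd hζ (not_lt.2 zero_le)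
    have h : ∃ β', β' ≠ 0 ∧ β' < α ∧ (onm β' : Nm P) = onm β := ⟨β, h0, h1, rfl⟩
    have h4 := hcl (onm β) h2
    rw [dif_pos h] at h4
    refine ⟨g.val (F h.choose), GG.val_mem h4, ?_⟩
    rw [← h3]
    rw [← fc_onto g hM.2.zf hγ h2 h4]
    obtain ⟨c1, c2, c3⟩ := h.choose_spec
    have h5 := hF h.choose c1 c2
    rw [c3] at h5
    rw [h5]
    exact GG.fc_top
  · intro f hf ho
    obtain ⟨τ, hτ, rfl⟩ := hf
    have h1 := (fc_onto g hM.2.zf hγ hα hτ).2 ho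
    rw [hno τ] at h1
    exact GG.not_fc_bot h1

/-- The cardinals `ω_1` and `ω_2` of the model. -/
theorem ae_omega2_of {δ : Cardinal.{0}} (hδ : IsInaccessible δ) (hc : CC δ P)
    (hcol : ∀ α : Ordinal.{0}, α ≠ 0 → α < δ.ord → ∃ F : ℕ → α.ToType → RO P,
      (∀ n b b', b ≠ b' → F n b ⊓ F n b' = ⊥) ∧ (∀ n, ⨆ b, F n b = ⊤) ∧ ∀ b, ⨆ n, F n b = ⊤)
    (hω : ∀ᶠ g in aeM P, g.val (onm Ordinal.omega0) = ZFSet.omega) :
    ∀ᶠ g in aeM P, IsOmega2In g.M (g.val (onm (Order.succ δ).ord)) := by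
  have hδ0 : ℵ₀ ≤ δ := hδ.aleph0_lt.le
  have hω0 : Ordinal.omega0 = (ℵ₀ : Cardinal.{0}).ord := Cardinal.ord_aleph0.symm
  have h1 := ae_succCard (P := P) Ordinal.omega0 δ.ord
    (by rw [hω0, Cardinal.ord_lt_ord]; exact hδ.aleph0_lt)
    (fun β hβ0 hβ => by
      obtain ⟨F, hF1, hF2, hF3⟩ := hcol β hβ0 hβ
      exact ⟨relN F, vOnto_relN F hF1 hF2 hF3⟩)
    (fun f => by
      rw [hω0]
      exact no_onto hc hδ.isRegular le_rfl hδ.aleph0_lt f)
  have h2 := ae_succCard (P := P) δ.ord (Order.succ δ).ord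
    (by rw [Cardinal.ord_lt_ord]; exact Order.lt_succ δ)
    (fun β hβ0 hβ => by
      have hcard : #β.ToType ≤ δ := by
        rw [Cardinal.mk_toType]
        exact Order.lt_succ_iff.1 (Cardinal.lt_ord.1 hβ)
      have hne : Nonempty β.ToType := by
        rw [Ordinal.nonempty_toType_iff]
        exact hβ0
      have hle : #β.ToType ≤ #δ.ord.ToType := by
        rw [Cardinal.mk_toType δ.ord, Cardinal.card_ord]
        exact hcard
      obtain ⟨e⟩ := hle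
      have hs := Function.invFun_surjective e.injective
      exact ⟨_, vOnto_fnN _ hs⟩)
    (fun f => no_onto hc (Cardinal.isRegular_succ hδ0) (Order.le_succ δ) (Order.lt_succ δ) f)
  filter_upwards [h1, h2, hω] with g g1 g2 g3
  rw [g3] at g1
  exact ⟨_, g1, g2⟩

end Model

end Pool.Agent.Helper52.SW
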