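import Pool.Agent.Helper52.SW.Mat
import Pool.Agent.Helper2.SW.Defs2
import Pool.Agent.Helper63.WR.Final

/-!
# Project SW, model part: the indices of the reals and the well-order
-/

set_option autoImplicit false

namespace Pool.Agent.Helper52.SW

open Cardinal Filter Set Pool.Agent.Helper23.XB Pool.Agent.Helper33.HM Pool.Agent.Helper33.HMG
open Pool.Agent.Helper32.HB Pool.Agent.Helper63.WR Pool.Agent.Helper63.SM Pool.Agent.Helper2.SW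

variable {P : Type} [Preorder P] [OrderTop P]

/-- The graph with the name `γ`. -/
noncomputable def mG (γ : Nm P) (a b : ℕ) : RO P := vm (pairN (oN a) (oN b)) γ

/-- The functions with the name `χ`. -/
noncomputable def mC {μ : Ordinal.{0}} (χ : Nm P) (i : μ.ToType) (k a : ℕ) : RO P :=
  vm (pairN (oI i) (pairN (oN k) (oN a))) χ

/-- The implication of two decided values. -/
theorem fc_himp_of {g : GG P} {U V : RO P} (h : g.fc (U ⇨ V) ∨ g.fc (U ⇨ V)ᶜ) (h1 : g.fc U → g.fc V) : g.fc (U ⇨ V) := by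
  rcases h with h | h
  · exact h
  · exfalso
    have h2 : (U ⇨ V)ᶜ ≤ U := by
      rw [compl_le_iff_compl_le, himp_eq]
      exact le_sup_right
    have h3 : (U ⇨ V)ᶜ ≤ Vᶜ := compl_le_compl (by rw [himp_eq]; exact le_sup_left)
    exact GG.not_fc_compl (GG.fc_mono h3 h) (h1 (GG.fc_mono h2 h))

/-- The equality of reals. -/
theorem ae_eqv : ∀ᶠ g in aeM P, ∀ σ ∈ g.N, ∀ τ ∈ g.N,
    (g.fc (eqv (rn σ) (rn τ)) ↔ ∀ n, num n ∈ g.val σ ↔ num n ∈ g.val τ) := by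
  filter_upwards [ae_oN (P := P),
    ae_infX (P := P) (fun _ : ℕ => emptyN)
      (fun v n => (rn (v 0) n ⇨ rn (v 1) n) ⊓ (rn (v 1) n ⇨ rn (v 0) n)),
    eventually_countable_forall.2 fun n : ℕ => ae_dec2 (P := P) fun σ τ => (rn σ n ⇨ rn τ n)]
    with g h1 h2 h3 σ hσ τ hτ
  have key : ∀ n, ∀ σ ∈ g.N, (g.fc (rn σ n) ↔ num n ∈ g.val σ) := by
    intro n σ hσ
    unfold rn
    rw [GG.fc_vm (h1 n) hσ, val_oN h1]
  constructor
  · intro h n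
    have h5 : eqv (rn σ) (rn τ) ≤ (rn σ n ⇨ rn τ n) ⊓ (rn τ n ⇨ rn σ n) := iInf_le _ n
    have h6 := GG.fc_inf.1 (GG.fc_mono h5 h)
    rw [← key n σ hσ, ← key n τ hτ]
    exact ⟨GG.fc_mp h6.1, GG.fc_mp h6.2⟩
  · intro h
    have h5 := h2 [σ, τ] (by simp [hσ, hτ])
    refine h5 fun n _ => GG.fc_inf.2 ⟨?_, ?_⟩
    · exact fc_himp_of (h3 n σ hσ τ hτ)
        (fun h6 => (key n τ hτ).2 ((h n).1 ((key n σ hσ).1 h6)))
    · exact fc_himp_of (h3 n τ hτ σ hσ)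
        (fun h6 => (key n σ hσ).2 ((h n).2 ((key n τ hτ).1 h6)))

/-- Every real has an index. -/
theorem ae_index {μ : Ordinal.{0}} {T : Pat Wd} (B : BWO P μ.ToType T) :
    ∀ᶠ g in aeM P, (∀ σ ∈ g.N, ∃ i : μ.ToType, (oI i : Nm P) ∈ g.N ∧ g.fc (B.Idx (rn σ) i)) ∧
      (∀ σ ∈ g.N, ∀ i j, g.fc (B.Idx (rn σ) i) → g.fc (B.Idx (rn σ) j) → i = j) ∧
      ∀ σ ∈ g.N, ∀ τ ∈ g.N, ∀ i j, g.fc (B.Idx (rn σ) i) → g.fc (B.Idx (rn τ) j) →
        (i = j ↔ ∀ n, num n ∈ g.val σ ↔ num n ∈ g.val τ) := by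
  have huniq : ∀ g : GG P, ∀ σ : Nm P, ∀ i j, g.fc (B.Idx (rn σ) i) → g.fc (B.Idx (rn σ) j) →
      i = j := by
    intro g σ i j hi hj
    by_contra hne
    have h := GG.fc_inf.2 ⟨hi, hj⟩
    rw [B.disj _ _ _ hne] at h
    exact GG.not_fc_bot h
  filter_upwards [ae_supX (P := P) (fun i : μ.ToType => oI i) (fun v i => B.Idx (rn (v 0)) i),
    ae_eqv (P := P)] with g h1 h2
  refine ⟨fun σ hσ => ?_, fun σ _ => huniq g σ, fun σ hσ τ hτ i j hi hj => ⟨fun h => ?_, fun h => ?_⟩⟩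
  · refine h1 [σ] (by simpa using hσ) ?_
    have h3 : (⨆ i, B.Idx (rn (asg [σ] 0)) i) = ⊤ := B.tot _
    rw [h3]
    exact GG.fc_top
  · subst h
    exact (h2 σ hσ τ hτ).1 (GG.fc_mono (B.inj _ _ i) (GG.fc_inf.2 ⟨hi, hj⟩))
  · have h3 := (h2 σ hσ τ hτ).2 h
    have h4 := GG.fc_mono (B.ext _ _ i) (GG.fc_inf.2 ⟨hi, h3⟩)
    exact huniq g τ i j h4 hj

/-- The order of the indices. -/
theorem ae_order {μ : Ordinal.{0}} {T : Pat Wd} (B : BWO P μ.ToType T) :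
    ∀ᶠ g in aeM P, ∀ σ ∈ g.N, ∀ τ ∈ g.N, ∀ i j : μ.ToType, g.fc (B.Idx (rn σ) i) →
      g.fc (B.Idx (rn τ) j) → (i < j ↔ ∃ γ ∈ g.N, ∃ χ ∈ g.N,
        g.fc (phi T (mG γ) (mC χ : μ.ToType → ℕ → ℕ → RO P) (rn σ) (rn τ))) := by
  classical
  have hex : ∀ b b' : μ.ToType, ∃ (G : ℕ → ℕ → RO P) (c : μ.ToType → ℕ → ℕ → RO P), b < b' →
      ∀ x y, B.Idx x b ⊓ B.Idx y b' ≤ phi T G c x y := by
    intro b b'
    by_cases h : b < b'
    · obtain ⟨G, c, h1⟩ := B.exist b b' h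
      exact ⟨G, c, fun _ => h1⟩
    · exact ⟨fun _ _ => ⊥, fun _ _ _ => ⊥, fun h' => absurd h' h⟩
  choose G c hGc using hex
  filter_upwards [ae_index B, ae_mats (P := P) G c,
    ae_supX (P := P) (fun _ : {p : μ.ToType × μ.ToType // p.1 < p.2} => emptyN)
      (fun v p => B.Idx (rn (v 0)) p.1.1 ⊓ B.Idx (rn (v 1)) p.1.2)]
    with g h1 h2 h3 σ hσ τ hτ i j hi hj
  constructor
  · intro hij
    have hi' : (oI i : Nm P) ∈ g.N := by
      obtain ⟨i', h4, h5⟩ := h1.1 σ hσ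
      rwa [h1.2.1 σ hσ i i' hi h5]
    have hj' : (oI j : Nm P) ∈ g.N := by
      obtain ⟨j', h4, h5⟩ := h1.1 τ hτ
      rwa [h1.2.1 τ hτ j j' hj h5]
    obtain ⟨γ, hγ, χ, hχ, h4, h5⟩ := h2 i j hi' hj'
    refine ⟨γ, hγ, χ, hχ, ?_⟩
    have e1 : mG γ = G i j := funext fun a => funext fun b => h4 a b
    have e2 : mC χ = c i j := funext fun x => funext fun k => funext fun a => h5 x k a
    rw [e1, e2]
    exact GG.fc_mono (hGc i j hij _ _) (GG.fc_inf.2 ⟨hi, hj⟩)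
  · rintro ⟨γ, _, χ, _, h4⟩
    have h5 := GG.fc_mono (B.none (mG γ) (mC χ) (rn σ) (rn τ)) h4
    have h6 : (⨆ b, ⨆ b', ⨆ _ : b < b', B.Idx (rn σ) b ⊓ B.Idx (rn τ) b') ≤
        ⨆ p : {p : μ.ToType × μ.ToType // p.1 < p.2}, B.Idx (rn σ) p.1.1 ⊓ B.Idx (rn τ) p.1.2 :=
      iSup_le fun b => iSup_le fun b' => iSup_le fun hb =>
        le_iSup (fun p : {p : μ.ToType × μ.ToType // p.1 < p.2} =>
          B.Idx (rn σ) p.1.1 ⊓ B.Idx (rn τ) p.1.2) ⟨(b, b'), hb⟩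
    obtain ⟨⟨⟨b, b'⟩, hb⟩, -, h7⟩ := h3 [σ, τ] (by simp [hσ, hτ]) (GG.fc_mono h6 h5)
    have h8 := GG.fc_inf.1 h7
    have e1 : i = b := h1.2.1 σ hσ i b hi h8.1
    have e2 : j = b' := h1.2.1 τ hτ j b' hj h8.2
    rw [e1, e2]
    exact hb

/-- A relation on the reals given by indices in a well-order is a well-order. -/
theorem isWellOrder_of_index {M : Set ZFSet.{0}} {R : ZFSet.{0} → ZFSet.{0} → Prop} {I : Type}
    [LinearOrder I] [WellFoundedLT I] (ix : ZFSet.{0} → I)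
    (hR : ∀ x ∈ M, ∀ y ∈ M, (R x y ↔ x ⊆ ZFSet.omega ∧ y ⊆ ZFSet.omega ∧ ix x < ix y))
    (hinj : ∀ x ∈ M, ∀ y ∈ M, x ⊆ ZFSet.omega → y ⊆ ZFSet.omega → ix x = ix y → x = y) :
    IsWellOrderOfReals M R where
  dom x hx y hy h := ⟨((hR x hx y hy).1 h).1, ((hR x hx y hy).1 h).2.1⟩
  irrefl x hx h := lt_irrefl _ ((hR x hx x hx).1 h).2.2
  trans x hx y hy z hz h h' := by
    have h1 := (hR x hx y hy).1 h
    have h2 := (hR y hy z hz).1 h'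
    exact (hR x hx z hz).2 ⟨h1.1, h2.2.1, h1.2.2.trans h2.2.2⟩
  total x hx y hy h h' := by
    rcases lt_trichotomy (ix x) (ix y) with h1 | h1 | h1
    · exact Or.inr (Or.inl ((hR x hx y hy).2 ⟨h, h', h1⟩))
    · exact Or.inl (hinj x hx y hy h h' h1)
    · exact Or.inr (Or.inr ((hR y hy x hx).2 ⟨h', h, h1⟩))
  least S hS hω hne := by
    obtain ⟨x, hx, hmin⟩ := (wellFounded_lt (α := I)).has_min (ix '' S) (hne.image ix)
    obtain ⟨x, hxS, rfl⟩ := hx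
    refine ⟨x, hxS, fun y hy => ?_⟩
    rcases lt_trichotomy (ix x) (ix y) with h1 | h1 | h1
    · exact Or.inr ((hR x (hS hxS) y (hS hy)).2 ⟨hω x hxS, hω y hy, h1⟩)
    · exact Or.inl (hinj y (hS hy) x (hS hxS) (hω y hy) (hω x hxS) h1.symm)
    · exact absurd h1 (hmin (ix y) ⟨y, hy, rfl⟩)

/-- The well-order of the reals of the model. -/
theorem ae_wellOrder {μ : Ordinal.{0}} {T : Pat Wd} (B : BWO P μ.ToType T) :
    ∀ᶠ g in aeM P, ∀ R : ZFSet.{0} → ZFSet.{0} → Prop,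
      (∀ σ ∈ g.N, ∀ τ ∈ g.N, (R (g.val σ) (g.val τ) ↔ g.val σ ⊆ ZFSet.omega ∧
        g.val τ ⊆ ZFSet.omega ∧ ∃ γ ∈ g.N, ∃ χ ∈ g.N,
          g.fc (phi T (mG γ) (mC χ : μ.ToType → ℕ → ℕ → RO P) (rn σ) (rn τ)))) →
      IsWellOrderOfReals g.M R := by
  filter_upwards [ae_index B, ae_order B] with g h1 h2 R hR
  classical
  have h3 : ∀ x : ZFSet.{0}, x ∈ g.M → ∃ σ, σ ∈ g.N ∧ g.val σ = x ∧ ∃ i : μ.ToType,
      g.fc (B.Idx (rn σ) i) := by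
    intro x hx
    obtain ⟨σ, hσ, rfl⟩ := hx
    obtain ⟨i, -, hi⟩ := h1.1 σ hσ
    exact ⟨σ, hσ, rfl, i, hi⟩
  rcases isEmpty_or_nonempty μ.ToType with hμ | ⟨⟨i₀⟩⟩
  · -- no indices
    have h4 : ∀ x, x ∉ g.M := by
      intro x hx
      obtain ⟨σ, hσ, -, i, -⟩ := h3 x hx
      exact hμ.elim i
    exact ⟨fun x hx => absurd hx (h4 x), fun x hx => absurd hx (h4 x),
      fun x hx => absurd hx (h4 x), fun x hx => absurd hx (h4 x),
      fun S hS _ ⟨x, hx⟩ => absurd (hS hx) (h4 x)⟩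
  · have h4 : ∀ x : ZFSet.{0}, ∃ (σ : Nm P) (i : μ.ToType), x ∈ g.M → σ ∈ g.N ∧ g.val σ = x ∧
        g.fc (B.Idx (rn σ) i) := by
      intro x
      by_cases hx : x ∈ g.M
      · obtain ⟨σ, h5, h6, i, h7⟩ := h3 x hx
        exact ⟨σ, i, fun _ => ⟨h5, h6, h7⟩⟩
      · exact ⟨emptyN, i₀, fun h => absurd h hx⟩
    choose nm ix hix using h4
    refine isWellOrder_of_index ix (fun x hx y hy => ?_) fun x hx y hy hxω hyω hxy => ?_
    · obtain ⟨a1, a2, a3⟩ := hix x hx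
      obtain ⟨b1, b2, b3⟩ := hix y hy
      have h5 := hR _ a1 _ b1
      rw [a2, b2, ← h2 _ a1 _ b1 _ _ a3 b3] at h5
      exact h5
    · obtain ⟨a1, a2, a3⟩ := hix x hx
      obtain ⟨b1, b2, b3⟩ := hix y hy
      have h5 := (h1.2.2 _ a1 _ b1 _ _ a3 b3).1 hxy
      rw [a2, b2] at h5
      ext z
      constructor
      · intro hz
        obtain ⟨n, rfl⟩ := mem_omega.1 (hxω hz)
        exact (h5 n).1 hz
      · intro hz
        obtain ⟨n, rfl⟩ := mem_omega.1 (hyω hz)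
        exact (h5 n).2 hz

end Pool.Agent.Helper52.SW
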